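import Mathlib
import Pool.Agent.Q254.DC.Main

/-!
# A non-real `c` with `Re c < -1` for which the closure of the range of `σ_c` is connected

For `c = -(1 + ε) + i t` with `t = 4 / (5 log 4)` and `ε > 0` small, the subset sums of the numbers
`log (1 + q ^ c)`, `q` prime, fill discs that are large compared with the steps
`log (σ_c (p ^ (a + 1)) / σ_c (p ^ a))`; hence any two values of `σ_c` are joined by arbitrarily
fine chains of values of `σ_c`.
-/

set_option autoImplicit false

namespace Pool.Agent.Results.MP_8a688e_nt.ConnectedClosure

/-- The divisor function `σ_c(n) = ∑_{d ∣ n} d ^ c` on the positive integers. -/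
noncomputable def sigma (c : ℂ) (n : ℕ+) : ℂ := ∑ d ∈ (n : ℕ).divisors, (d : ℂ) ^ c

/-- The number `𝒩(c)` of connected components of the closure of the range of `σ_c`. -/
noncomputable def numComponents (c : ℂ) : ℕ∞ :=
  ENat.card (ConnectedComponents (closure (Set.range (sigma c))))

/-- There is a non-real `c` with `Re c < -1` such that the closure of the range of `σ_c` is
connected, i.e. has exactly one connected component. -/
theorem result : ∃ c : ℂ, c.im ≠ 0 ∧ c.re < -1 ∧ numComponents c = 1 ∧
    IsConnected (closure (Set.range (sigma c))) := by
  obtain ⟨c, h1, h2, h3⟩ := Q254.DC.main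
  have h4 : IsConnected (closure (Set.range (sigma c))) := h3
  refine ⟨c, h1, h2, ?_, h4⟩
  have : ConnectedSpace (closure (Set.range (sigma c))) := isConnected_iff_connectedSpace.1 h4
  unfold numComponents
  rw [ENat.card_eq_one_iff_unique]
  exact nonempty_unique _

end Pool.Agent.Results.MP_8a688e_nt.ConnectedClosure
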